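import Pool.Agent.H25.MIC.SsFew
import Pool.Agent.H7.MIC.LLc

/-!
# Own leaves in a cell: the input is proved
-/

set_option autoImplicit false

namespace Pool.MIC7

theorem ssFew (n K : ℕ) : SsFew n K := by
  obtain ⟨C, hC, h⟩ := Pool.STAT.SsF.ss_few n K
  exact ⟨C, hC, fun D p i j i' j' ic jc r J τ => h D p J i j i' j' ic jc r τ⟩

end Pool.MIC7
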