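import Pool.Agent.H20.MIC.Frm
import Pool.Agent.H19.STAT.Sys2L
import Pool.Agent.H87.STAT.Vch

/-!
# The shape of the own leaf has few values

Two samples with the same context, the same time and the same label at a third pair: if the own
sheet and the sheet at the third pair differ by an almost constant function on the natural box,
then the coefficients of the own sheet in the natural chart are almost the same.
-/

set_option autoImplicit false

namespace Pool.STAT.SsF

open Finset Real MvPolynomial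
open Pool.Agent.H49.Ent Pool.Agent.H32.Dense Pool.STK Pool.KS3
open Pool.STAT
open Pool.MIC.Frm (nat pt pt_eq eval_fr' vars_fr deg_fr)

/-- Frames with the same systems before `n`. -/
theorem pt_congr {g : ℕ → ℕ} {Φ Φ' : ℕ → PN} {z z' : ℕ → ℝ} {n : ℕ} (hΦ : TriN Φ)
    (hΦ' : TriN Φ') (h : ∀ k < n, Φ k = Φ' k) (hz : ∀ k < n, z k = z' k) :
    ∀ k < n, pt g Φ z k = pt g Φ' z' k := by
  intro k
  induction k using Nat.strong_induction_on with
  | _ k ih =>
    intro hk
    rw [pt_eq hΦ, pt_eq hΦ', h k hk, hz k hk]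
    congr 1
    exact Pool.SYS35.eval_congr (hΦ' k) fun m hm => ih m hm (by omega)

theorem coeff_le_nrm (F : PN) (α : ℕ →₀ ℕ) : |coeff α F| ≤ nrm (fun _ => 1) 1 F := by
  by_cases hα : α ∈ F.support
  · unfold nrm
    have h1 := Finset.single_le_sum (f := fun k => |F.coeff k| *
      (1 : ℝ) ^ Finsupp.weight (fun _ : ℕ => 1) k)
      (fun k _ => mul_nonneg (abs_nonneg _) (pow_nonneg zero_le_one _)) hα
    simp only [one_pow, mul_one] at h1 ⊢
    exact h1
  · rw [notMem_support_iff.1 hα, abs_zero]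
    unfold nrm
    exact Finset.sum_nonneg fun k _ => mul_nonneg (abs_nonneg _) (pow_nonneg zero_le_one _)

theorem support_expo {F : PN} {n D : ℕ} (hv : F.vars ⊆ range n) (hD : F.totalDegree ≤ D) :
    F.support ⊆ VCH.expo n D := by
  intro k hk
  refine Finset.mem_finsupp_iff.mpr ⟨fun i hi => hv ?_, fun i _ => ?_⟩
  · exact (mem_vars_iff_mem_support i).mpr ⟨k, hk, hi⟩
  · rw [mem_range]
    have h1 := (monomial_le_degreeOf i hk).trans ((degreeOf_le_totalDegree F i).trans hD)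
    omega

section kp

variable {D : NDat2} {n K i j i' j' : ℕ}

open Classical in
/-- The natural coordinates at the exact time. -/
noncomputable def zz (D : NDat2) (n i j i' j' : ℕ) (ω : D.Ω) (z : ℕ → ℝ) (k : ℕ) : ℝ :=
  if k = 0 then (2 : ℝ) ^ D.g i j 0 * D.rh i j ω 0 else
    if D.fat n i j i' j' k then z k else 0

theorem mx_low (hg : ∀ l, 1 ≤ l → l < n → D.g i' j' l ≤ D.g i j l) (ω : D.Ω) {k : ℕ}
    (hk : k < n) : D.mx n i j i' j' ω k = D.Φ i j ω k := by
  unfold NDat2.mx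
  rw [if_neg]
  rintro ⟨h1, -, h3⟩
  have := hg k h1 hk
  omega

theorem mx_tri (hP : ∀ x, TriN (D.P i j x)) (hG : ∀ x, TriN (D.G i' j' x)) (ω : D.Ω) :
    TriN (D.mx n i j i' j' ω) := by
  intro k
  unfold NDat2.mx
  split_ifs
  · exact hG _ k
  · exact hP _ k

open Classical in
theorem eval_kp (ω : D.Ω) (z : ℕ → ℝ) (l : ℕ) :
    eval z (D.kp n i j i' j' ω l) =
      eval (pt (D.g i j) (D.mx n i j i' j' ω) (zz D n i j i' j' ω z)) (D.Ψ i' j' ω l) -
        eval (pt (D.g i j) (D.mx n i j i' j' ω) (zz D n i j i' j' ω z)) (D.Φ i j ω l) := by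
  unfold NDat2.kp
  rw [AdxRow.evl_bnd]
  have e : (fun k => eval z (if k = 0 then C ((2 : ℝ) ^ D.g i j 0 * D.rh i j ω 0) else
      if D.fat n i j i' j' k then (MvPolynomial.X k : PN) else 0)) = zz D n i j i' j' ω z := by
    funext k
    unfold zz
    split_ifs
    · rw [eval_C]
    · rw [eval_X]
    · rw [map_zero]
  rw [e, eval_fr', map_sub]

theorem kp_vars (hP : ∀ x, TriN (D.P i j x)) (hG : ∀ x, TriN (D.G i' j' x)) (ω : D.Ω) :
    (D.kp n i j i' j' ω n).vars ⊆ range n := by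
  unfold NDat2.kp
  refine AdxRow.vars_bnd (m := n) (vars_fr (mx_tri hP hG ω)
    (AdxRow.vars_sub_le (hG _ n) (hP _ n))) fun k hk => ?_
  split_ifs
  · rw [vars_C]
    exact Finset.empty_subset _
  · rw [vars_X]
    exact Finset.singleton_subset_iff.mpr (mem_range.mpr hk)
  · rw [vars_0]
    exact Finset.empty_subset _

theorem kp_deg (hP : ∀ x, TriN (D.P i j x)) (hG : ∀ x, TriN (D.G i' j' x))
    (hPd : ∀ x l, (D.P i j x l).totalDegree ≤ K) (hGd : ∀ x l, (D.G i' j' x l).totalDegree ≤ K)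
    (ω : D.Ω) : (D.kp n i j i' j' ω n).totalDegree ≤ K * (K + 1) ^ n := by
  unfold NDat2.kp
  refine (Dgb.deg_bind (B := 1) fun k _ => ?_).trans ?_
  · split_ifs
    · rw [totalDegree_C]
      exact Nat.zero_le _
    · rw [totalDegree_X]
    · rw [totalDegree_zero]
      exact Nat.zero_le _
  · rw [mul_one]
    refine deg_fr (mx_tri hP hG ω) (fun k _ => ?_) (AdxRow.vars_sub_le (hG _ n) (hP _ n))
      ((totalDegree_sub _ _).trans (max_le (hGd _ _) (hPd _ _)))
    unfold NDat2.mx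
    split_ifs
    · exact hGd _ _
    · exact hPd _ _

/-- The point of the chart. -/
theorem pt_box (hP : ∀ x, TriN (D.P i j x)) (hG : ∀ x, TriN (D.G i' j' x)) (hn : 1 ≤ n)
    (hg : ∀ l, 1 ≤ l → l < n → D.g i' j' l ≤ D.g i j l) (ω : D.Ω) {z : ℕ → ℝ}
    (hz : ∀ k < n, |z k| ≤ 1) :
    pt (D.g i j) (D.mx n i j i' j' ω) (zz D n i j i' j' ω z) 0 = D.X ω 0 ∧
    ∀ k, 1 ≤ k → k < n →
      |pt (D.g i j) (D.mx n i j i' j' ω) (zz D n i j i' j' ω z) k -
        eval (pt (D.g i j) (D.mx n i j i' j' ω) (zz D n i j i' j' ω z)) (D.Φ i j ω k)| ≤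
        1 / 2 ^ D.g i j k := by
  have hT := mx_tri (n := n) hP hG ω
  constructor
  · rw [pt_eq hT, mx_low hg ω (by omega)]
    have e1 : zz D n i j i' j' ω z 0 = (2 : ℝ) ^ D.g i j 0 * D.rh i j ω 0 := by
      unfold zz
      rw [if_pos rfl]
    have e2 : eval (pt (D.g i j) (D.mx n i j i' j' ω) (zz D n i j i' j' ω z)) (D.Φ i j ω 0) =
        eval (D.X ω) (D.Φ i j ω 0) :=
      Pool.SYS35.eval_congr (hP _ 0) fun m hm => absurd hm (Nat.not_lt_zero _)
    rw [e1, e2]
    unfold NDat2.rh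
    field_simp
    ring
  · intro k hk1 hk
    have e1 := pt_eq (g := D.g i j) hT (zz D n i j i' j' ω z) k
    rw [mx_low hg ω hk] at e1
    rw [e1]
    have e2 : ∀ x y : ℝ, x + y - x = y := fun x y => by ring
    rw [e2, abs_div, abs_of_pos (show (0 : ℝ) < 2 ^ D.g i j k by positivity)]
    refine div_le_div_of_nonneg_right ?_ (by positivity)
    unfold zz
    split_ifs
    · omega
    · exact hz k hk
    · rw [abs_zero]
      exact zero_le_one

end kp

/-- Digits. -/
theorem flr {x y L : ℝ} (h : |x - y| ≤ L) : |((⌊x⌋ - ⌊y⌋ : ℤ) : ℝ)| ≤ L + 1 := by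
  have h1 := abs_le.1 h
  have a1 := Int.floor_le x
  have a2 := Int.lt_floor_add_one x
  have a3 := Int.floor_le y
  have a4 := Int.lt_floor_add_one y
  rw [abs_le]
  push_cast
  constructor
  · linarith [h1.1]
  · linarith [h1.2]

/-- **The shape of the own leaf has few values** given the context, the time and the label at a
third pair, if the difference of the two sheets is almost constant on the natural box. -/
theorem ss_few (n K : ℕ) : ∃ C : ℝ, 1 ≤ C ∧ ∀ (D : NDat2) (p : D.Ω → ℝ)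
    (J i j i' j' ic jc r : ℕ) (τ : ℝ), IsLaw p → 1 ≤ n → 0 < τ →
    (∀ x l, (D.P i j x l).totalDegree ≤ K) → (∀ x, TriN (D.P i j x)) →
    (∀ x l, (D.G i' j' x l).totalDegree ≤ K) → (∀ x, TriN (D.G i' j' x)) →
    (∀ x l, (D.G ic jc x l).totalDegree ≤ K) → (∀ x, TriN (D.G ic jc x)) →
    (∀ ω, D.X ω 0 = (D.T ω : ℝ) / 2 ^ J) →
    (∀ l, 1 ≤ l → l < n → D.g i' j' l ≤ D.g i j l) → D.g i j n < D.g i' j' n →
    (∀ ω, 0 < p ω → ∃ a : ℝ, ∀ b : ℕ → ℝ, b 0 = D.X ω 0 →
      (∀ k, 1 ≤ k → k < n → |b k - eval b (D.Φ i j ω k)| ≤ 1 / 2 ^ D.g i j k) →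
      |eval b (D.Ψ i' j' ω n) - eval b (D.Ψ ic jc ω n) - a| ≤ τ) →
    CH p (D.ss n i j i' j' r) (fun ω => (D.s ic jc ω, (D.c i j ω, D.T ω))) ≤
      C * (Real.log (2 ^ (D.g i j n + r) * τ + 1) + 1) := by
  classical
  obtain ⟨C₁, hC₁, hnrm⟩ := Pool.SYS35.nrm_of_sup n (K * (K + 1) ^ n)
  obtain ⟨T, hT⟩ : ∃ T : Finset (ℕ →₀ ℕ), T = VCH.expo n (K * (K + 1) ^ n) := ⟨_, rfl⟩
  have hcd : (0 : ℝ) ≤ ((Fintype.card T : ℕ) : ℝ) := Nat.cast_nonneg _
  refine ⟨(Fintype.card T : ℕ) * (4 * C₁ + 3) + 1, by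
    have : (0 : ℝ) ≤ (Fintype.card T : ℕ) * (4 * C₁ + 3) := by positivity
    linarith, ?_⟩
  intro D p J i j i' j' ic jc r τ hp hn hτ hPd hP hGd hG hGcd hGc hX0 hg hgn hbox
  obtain ⟨e, he⟩ : ∃ e : T ≃ Fin (Fintype.card T), e = Fintype.equivFin _ := ⟨_, rfl⟩
  obtain ⟨N, hN⟩ : ∃ N : D.Ω → Fin (Fintype.card T) → ℤ, ∀ ω x, N ω x =
    D.ss n i j i' j' r ω n (e.symm x) := ⟨_, fun _ _ => rfl⟩
  have hthn : D.thn n i j i' j' n := ⟨hn, le_rfl, hgn⟩
  have hnt : ∀ l, l ≠ n → ¬ D.thn n i j i' j' l := by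
    rintro l hl ⟨h1, h2, h3⟩
    have := hg l h1 (by omega)
    omega
  have hdet : Det p (fun ω => (N ω, (D.s ic jc ω, (D.c i j ω, D.T ω))))
      (D.ss n i j i' j' r) := by
    intro ω ω' hω hω' hh
    have hNN : N ω = N ω' := (Prod.ext_iff.1 hh).1
    funext l al
    by_cases hl : l = n
    · subst hl
      by_cases hk : al ∈ T
      · have h2 := congrFun hNN (e ⟨al, hk⟩)
        rw [hN, hN, Equiv.symm_apply_apply] at h2
        exact h2
      · have e1 : ∀ ω, coeff al (D.kp l i j i' j' ω l) = 0 := fun ω =>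
          notMem_support_iff.mp fun h => hk (by
            rw [hT]
            exact support_expo (kp_vars hP hG ω) (kp_deg hP hG hPd hGd ω) h)
        unfold NDat2.ss
        rw [e1, e1]
    · unfold NDat2.ss
      rw [if_neg (fun h => hnt l hl h.1), if_neg (fun h => hnt l hl h.1)]
  refine (CH_mono_left hp.nonneg hdet).trans ?_
  have key : ∀ ω ω', 0 < p ω → 0 < p ω' →
      (D.s ic jc ω, (D.c i j ω, D.T ω)) = (D.s ic jc ω', (D.c i j ω', D.T ω')) → ∀ x,
      |((N ω x - N ω' x : ℤ) : ℝ)| ≤ 2 ^ (D.g i j n + r) * (C₁ * (2 * τ)) + 1 := by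
    intro ω ω' hω hω' hh x
    have es : D.s ic jc ω = D.s ic jc ω' := (Prod.ext_iff.1 hh).1
    have ec : D.c i j ω = D.c i j ω' := (Prod.ext_iff.1 (Prod.ext_iff.1 hh).2).1
    have eT : D.T ω = D.T ω' := (Prod.ext_iff.1 (Prod.ext_iff.1 hh).2).2
    have eX : D.X ω 0 = D.X ω' 0 := by rw [hX0, hX0, eT]
    have eΦ : D.Φ i j ω = D.Φ i j ω' := by
      unfold NDat2.Φ
      rw [ec]
    have eΨ : D.Ψ ic jc ω = D.Ψ ic jc ω' := by
      unfold NDat2.Ψ
      rw [es]
    rw [hN, hN]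
    obtain ⟨al, hal⟩ : ∃ al : ℕ →₀ ℕ, al = (e.symm x : ℕ →₀ ℕ) := ⟨_, rfl⟩
    rw [← hal]
    unfold NDat2.ss
    by_cases h0 : al ≠ 0
    · rw [if_pos ⟨hthn, h0⟩, if_pos ⟨hthn, h0⟩]
      refine flr ?_
      rw [← mul_sub, abs_mul, abs_of_pos (by positivity)]
      refine mul_le_mul (pow_le_pow_right₀ (by norm_num) (min_le_left _ _)) ?_ (abs_nonneg _)
        (by positivity)
      obtain ⟨a, ha⟩ := hbox ω hω
      obtain ⟨a', ha'⟩ := hbox ω' hω'
      have h1 := hnrm (fun _ => 1) 1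
        (D.kp n i j i' j' ω n - D.kp n i j i' j' ω' n - C (a - a')) (2 * τ) one_pos
        (AdxRow.vars_sub_le (AdxRow.vars_sub_le (kp_vars hP hG ω) (kp_vars hP hG ω')) (by
          rw [vars_C]
          exact Finset.empty_subset _))
        ((totalDegree_sub _ _).trans (max_le ((totalDegree_sub _ _).trans
          (max_le (kp_deg hP hG hPd hGd ω) (kp_deg hP hG hPd hGd ω'))) (by
            rw [totalDegree_C]
            exact Nat.zero_le _)))
        (fun z hz => by
          have hz' : ∀ k < n, |z k| ≤ 1 := fun k hk => by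
            have := hz k hk
            rwa [one_pow] at this
          rw [map_sub, map_sub, eval_C, eval_kp, eval_kp]
          obtain ⟨b, hb⟩ : ∃ b : ℕ → ℝ,
            b = pt (D.g i j) (D.mx n i j i' j' ω) (zz D n i j i' j' ω z) := ⟨_, rfl⟩
          obtain ⟨b', hb'⟩ : ∃ b' : ℕ → ℝ,
            b' = pt (D.g i j) (D.mx n i j i' j' ω') (zz D n i j i' j' ω' z) := ⟨_, rfl⟩
          obtain ⟨q1, q2⟩ := pt_box hP hG hn hg ω hz'
          rw [← hb] at q1 q2
          rw [← hb, ← hb']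
          have hbb : ∀ k < n, b' k = b k := by
            rw [hb, hb']
            refine pt_congr (mx_tri hP hG ω') (mx_tri hP hG ω) (fun k hk => ?_) (fun k _ => ?_)
            · rw [mx_low hg ω hk, mx_low hg ω' hk, eΦ]
            · unfold zz NDat2.rh
              have e3 : eval (D.X ω') (D.Φ i j ω' 0) = eval (D.X ω) (D.Φ i j ω 0) := by
                rw [eΦ]
                exact Pool.SYS35.eval_congr (hP _ 0) fun m hm => absurd hm (Nat.not_lt_zero _)
              rw [e3, eX]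
          have s1 : eval b' (D.Ψ i' j' ω' n) = eval b (D.Ψ i' j' ω' n) :=
            Pool.SYS35.eval_congr (hG _ n) hbb
          have s2 : eval b' (D.Φ i j ω' n) = eval b (D.Φ i j ω' n) :=
            Pool.SYS35.eval_congr (hP _ n) hbb
          rw [s1, s2]
          have r1 := ha b q1 q2
          have r2 := ha' b (q1.trans eX) (fun k h1 h2 => by
            rw [← eΦ]
            exact q2 k h1 h2)
          rw [← eΨ] at r2
          rw [← eΦ]
          have r3 : eval b (D.Ψ i' j' ω n) - eval b (D.Φ i j ω n) -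
              (eval b (D.Ψ i' j' ω' n) - eval b (D.Φ i j ω n)) - (a - a') =
              (eval b (D.Ψ i' j' ω n) - eval b (D.Ψ ic jc ω n) - a) -
              (eval b (D.Ψ i' j' ω' n) - eval b (D.Ψ ic jc ω n) - a') := by ring
          rw [r3]
          refine (abs_sub _ _).trans ?_
          linarith)
      have h2 := (coeff_le_nrm (D.kp n i j i' j' ω n - D.kp n i j i' j' ω' n - C (a - a'))
        al).trans h1
      rw [coeff_sub, coeff_sub, coeff_C, if_neg (fun h => h0 h.symm), sub_zero] at h2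
      exact h2
    · rw [if_neg (fun h => h0 h.2), if_neg (fun h => h0 h.2), sub_self, Int.cast_zero, abs_zero]
      have : (0 : ℝ) ≤ 2 ^ (D.g i j n + r) * (C₁ * (2 * τ)) := by positivity
      linarith
  have h2 := CH_le_vec hp.nonneg hp.sum_one N (fun ω => (D.s ic jc ω, (D.c i j ω, D.T ω)))
    (fun _ => 2 ^ (D.g i j n + r) * (C₁ * (2 * τ)) + 1) key
  rw [Ex_const hp.sum_one] at h2
  refine h2.trans ?_
  obtain ⟨x, hx⟩ : ∃ x : ℝ, x = 2 ^ (D.g i j n + r) * τ := ⟨_, rfl⟩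
  have hx0 : 0 ≤ x := by
    rw [hx]
    positivity
  rw [← hx]
  have e1 : 2 * (2 ^ (D.g i j n + r) * (C₁ * (2 * τ)) + 1) + 1 = 4 * C₁ * x + 3 := by
    rw [hx]
    ring
  rw [e1]
  have e2 : Real.log (4 * C₁ * x + 3) ≤ (4 * C₁ + 3) * (Real.log (x + 1) + 1) := by
    have e3 : Real.log (4 * C₁ * x + 3) ≤ Real.log ((4 * C₁ + 3) * (x + 1)) := by
      refine Real.log_le_log (by positivity) ?_
      have : (0 : ℝ) ≤ C₁ := by linarith
      nlinarith
    rw [Real.log_mul (by positivity) (by positivity)] at e3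
    have e4 := Real.log_le_sub_one_of_pos (show (0 : ℝ) < 4 * C₁ + 3 by positivity)
    have e5 : 0 ≤ Real.log (x + 1) := Real.log_nonneg (by linarith)
    nlinarith
  have e6 : 0 ≤ Real.log (x + 1) + 1 := by
    have e5 : 0 ≤ Real.log (x + 1) := Real.log_nonneg (by linarith)
    linarith
  have e7 := mul_le_mul_of_nonneg_left e2 hcd
  linarith

end Pool.STAT.SsF
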